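import Pool.Agent.Helper77.DI.Base

/-!
DI-MUL: the big step, a combination of the basic steps (MP_b07a0a_ag).
-/

namespace Pool.Agent.Helper77.DI

theorem Mul_exists_pos {p : Multiset (ℕ × ℕ)} (h : 0 < (p.map Prod.snd).sum) :
    ∃ q ∈ p, 0 < q.2 := by
  by_contra hcon
  push Not at hcon
  have : (p.map Prod.snd).sum = 0 := by
    apply Multiset.sum_eq_zero
    intro x hx
    obtain ⟨q, hq, rfl⟩ := Multiset.mem_map.1 hx
    exact Nat.le_zero.1 (hcon q hq)
  omega

theorem Mul_sum_sub (c : ℕ) (J : Multiset (ℕ × ℕ)) (h : ∀ q ∈ J, c ≤ q.2) :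
    (J.map fun q => q.2 - c).sum + c * Multiset.card J = (J.map Prod.snd).sum := by
  induction J using Multiset.induction_on with
  | empty => simp
  | cons a s ih =>
    have h1 := ih (fun q hq => h q (Multiset.mem_cons_of_mem hq))
    have h2 := h a (Multiset.mem_cons_self a s)
    simp only [Multiset.map_cons, Multiset.sum_cons, Multiset.card_cons]
    rw [← h1, mul_add]
    omega

theorem Mul_map_eq (c : ℕ) (J : Multiset (ℕ × ℕ)) (h : ∀ q ∈ J, c ≤ q.2) :
    (J.map fun q => q.1 + c + (q.2 - c)) = J.map fun q => q.1 + q.2 := by
  apply Multiset.map_congr rfl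
  intro q hq
  have := h q hq
  omega

theorem Mul_sum_const (c : ℕ) (J : Multiset (ℕ × ℕ)) (h : ∀ q ∈ J, q.2 = c) :
    (J.map Prod.snd).sum = Multiset.card J * c := by
  induction J using Multiset.induction_on with
  | empty => simp
  | cons a s ih =>
    have h1 := ih (fun q hq => h q (Multiset.mem_cons_of_mem hq))
    have h2 := h a (Multiset.mem_cons_self a s)
    simp only [Multiset.map_cons, Multiset.sum_cons, Multiset.card_cons]
    rw [h1, h2]
    ring

theorem Mul_main : ∀ (ρ r k : ℕ) (p : Multiset (ℕ × ℕ)), (∀ q ∈ p, q.2 ≤ ρ) →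
    Even (p.map Prod.snd).sum → 2 * ρ ≤ (p.map Prod.snd).sum →
    Relation.ReflTransGen Step (k, r, p.map Prod.fst)
      (k + 2 * ρ, r + ρ, p.map fun q => q.1 + q.2) := by
  intro ρ
  induction ρ using Nat.strong_induction_on with
  | _ ρ ih =>
    intro r k p hρ heven hsum
    rcases Nat.eq_zero_or_pos ρ with h0 | hpos
    · subst h0
      have : (p.map fun q => q.1 + q.2) = p.map Prod.fst := by
        apply Multiset.map_congr rfl
        intro q hq
        have := hρ q hq
        omega
      rw [this]
      exact Relation.ReflTransGen.refl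
    -- the even step
    have evenstep : ∀ (J t : Multiset (ℕ × ℕ)), J + t = p → Even (Multiset.card J) →
        2 ≤ Multiset.card J → (∀ q ∈ J, 1 ≤ q.2) → (∀ q ∈ t, q.2 + 1 ≤ ρ) →
        2 * (ρ - 1) + Multiset.card J ≤ (p.map Prod.snd).sum →
        Relation.ReflTransGen Step (k, r, p.map Prod.fst)
          (k + 2 * ρ, r + ρ, p.map fun q => q.1 + q.2) := by
      intro J t hp hJe hJ2 hJ1 ht hs
      subst hp
      have hsub := Mul_sum_sub 1 J hJ1
      have hmap := Mul_map_eq 1 J hJ1
      have hle : ∀ q ∈ J, q.2 ≤ ρ := fun q hq => hρ q (Multiset.mem_add.2 (Or.inl hq))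
      rw [Multiset.map_add, Multiset.sum_add] at hs heven
      have hsum' : (((J.map fun q : ℕ × ℕ => (q.1 + 1, q.2 - 1)) + t).map Prod.snd).sum
          = (J.map fun q => q.2 - 1).sum + (t.map Prod.snd).sum := by
        rw [Multiset.map_add, Multiset.sum_add, Multiset.map_map]
        rfl
      have hih := ih (ρ - 1) (by omega) (r + 1) (k + 2)
        ((J.map fun q : ℕ × ℕ => (q.1 + 1, q.2 - 1)) + t) ?_ ?_ ?_
      · refine Relation.ReflTransGen.head
          (b := (k + 2, r + 1, (J.map Prod.fst).map (· + 1) + t.map Prod.fst)) ?_ ?_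
        · rw [Multiset.map_add]
          exact Step.even k r (J.map Prod.fst) (t.map Prod.fst) (by simpa using hJe)
            (by simpa using hJ2)
        · have e1 : ((J.map fun q : ℕ × ℕ => (q.1 + 1, q.2 - 1)) + t).map Prod.fst
              = (J.map Prod.fst).map (· + 1) + t.map Prod.fst := by
            rw [Multiset.map_add, Multiset.map_map, Multiset.map_map]
            rfl
          have e2 : (((J.map fun q : ℕ × ℕ => (q.1 + 1, q.2 - 1)) + t).map fun q => q.1 + q.2)
              = (J + t).map fun q => q.1 + q.2 := by
            rw [Multiset.map_add, Multiset.map_add, Multiset.map_map, ← hmap]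
            rfl
          rw [e1, e2] at hih
          have e3 : k + 2 + 2 * (ρ - 1) = k + 2 * ρ := by omega
          have e4 : r + 1 + (ρ - 1) = r + ρ := by omega
          rw [e3, e4] at hih
          exact hih
      · intro q hq
        rcases Multiset.mem_add.1 hq with h | h
        · obtain ⟨q', hq', rfl⟩ := Multiset.mem_map.1 h
          have := hle q' hq'
          simp only
          omega
        · have := ht q h
          omega
      · rw [hsum']
        have : (J.map fun q => q.2 - 1).sum + (t.map Prod.snd).sum + Multiset.card J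
            = (J.map Prod.snd).sum + (t.map Prod.snd).sum := by omega
        rw [← this] at heven
        rcases hJe with ⟨a, ha⟩
        rcases heven with ⟨b, hb⟩
        exact ⟨b - a, by omega⟩
      · rw [hsum']
        omega
    -- the pairs with maximal second entry
    classical
    set U := p.filter (fun q => q.2 = ρ) with hU
    set t := p.filter (fun q => ¬ q.2 = ρ) with ht
    have hUt : U + t = p := Multiset.filter_add_not _ p
    have hUmem : ∀ q ∈ U, q.2 = ρ := fun q hq => (Multiset.mem_filter.1 hq).2
    have htmem : ∀ q ∈ t, q.2 + 1 ≤ ρ := fun q hq => by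
      have h1 := (Multiset.mem_filter.1 hq).2
      have h2 := hρ q (Multiset.mem_filter.1 hq).1
      omega
    have hsumU := Mul_sum_const ρ U hUmem
    have hsump : (p.map Prod.snd).sum = Multiset.card U * ρ + (t.map Prod.snd).sum := by
      rw [← hUt, Multiset.map_add, Multiset.sum_add, hsumU]
    rcases Nat.even_or_odd (Multiset.card U) with hev | hodd
    · rcases Nat.eq_zero_or_pos (Multiset.card U) with hu0 | hupos
      · -- no maximal pairs
        have hU0 : U = 0 := Multiset.card_eq_zero.1 hu0
        have htp : t = p := by rw [← hUt, hU0, zero_add]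
        have hlt : ∀ q ∈ p, q.2 + 1 ≤ ρ := by rw [← htp]; exact htmem
        obtain ⟨q1, hq1, hq1p⟩ := Mul_exists_pos (p := p) (by omega)
        obtain ⟨p1, hp1⟩ := Multiset.exists_cons_of_mem hq1
        have hs1 : (p.map Prod.snd).sum = q1.2 + (p1.map Prod.snd).sum := by
          rw [hp1, Multiset.map_cons, Multiset.sum_cons]
        have hq1lt := hlt q1 hq1
        obtain ⟨q2, hq2, hq2p⟩ := Mul_exists_pos (p := p1) (by omega)
        obtain ⟨p2, hp2⟩ := Multiset.exists_cons_of_mem hq2
        refine evenstep {q1, q2} p2 ?_ (by simp) (by simp) ?_ ?_ ?_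
        · rw [hp1, hp2]
          simp only [Multiset.insert_eq_cons, Multiset.cons_add, Multiset.singleton_add]
        · intro q hq
          simp only [Multiset.insert_eq_cons, Multiset.mem_cons, Multiset.mem_singleton] at hq
          rcases hq with rfl | rfl <;> omega
        · intro q hq
          apply hlt
          rw [hp1, hp2]
          exact Multiset.mem_cons_of_mem (Multiset.mem_cons_of_mem hq)
        · simp only [Multiset.insert_eq_cons, Multiset.card_cons, Multiset.card_singleton]
          omega
      · have hu2 : 2 ≤ Multiset.card U := by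
          rcases hev with ⟨a, ha⟩
          omega
        refine evenstep U t hUt hev hu2 (fun q hq => by rw [hUmem q hq]; exact hpos) htmem ?_
        rw [hsump]
        obtain ⟨σ, rfl⟩ : ∃ σ, ρ = σ + 1 := ⟨ρ - 1, by omega⟩
        have : 2 * σ ≤ Multiset.card U * σ := Nat.mul_le_mul_right σ hu2
        simp only [Nat.add_sub_cancel, Nat.mul_add, Nat.mul_one]
        omega
    · by_cases hex : ∃ q ∈ t, 0 < q.2
      · obtain ⟨q, hq, hq0⟩ := hex
        obtain ⟨t', ht'⟩ := Multiset.exists_cons_of_mem hq
        have hst : (t.map Prod.snd).sum = q.2 + (t'.map Prod.snd).sum := by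
          rw [ht', Multiset.map_cons, Multiset.sum_cons]
        have hu1 : 1 ≤ Multiset.card U := by
          rcases hodd with ⟨a, ha⟩
          omega
        refine evenstep (q ::ₘ U) t' ?_ ?_ ?_ ?_ ?_ ?_
        · rw [← hUt, ht', Multiset.cons_add, Multiset.add_cons]
        · rw [Multiset.card_cons]
          rcases hodd with ⟨a, ha⟩
          exact ⟨a + 1, by omega⟩
        · rw [Multiset.card_cons]
          omega
        · intro q' hq'
          rcases Multiset.mem_cons.1 hq' with rfl | h
          · exact hq0
          · rw [hUmem q' h]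
            exact hpos
        · intro q' hq'
          apply htmem
          rw [ht']
          exact Multiset.mem_cons_of_mem hq'
        · rw [Multiset.card_cons]
          rcases hodd with ⟨a, ha⟩
          rcases Nat.eq_zero_or_pos a with h0 | ha0
          · have : Multiset.card U = 1 := by omega
            rw [this]
            omega
          · have hu2 : 2 ≤ Multiset.card U := by omega
            rw [hsump]
            obtain ⟨σ, rfl⟩ : ∃ σ, ρ = σ + 1 := ⟨ρ - 1, by omega⟩
            have : 2 * σ ≤ Multiset.card U * σ := Nat.mul_le_mul_right σ hu2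
            simp only [Nat.add_sub_cancel, Nat.mul_add, Nat.mul_one]
            omega
      · push Not at hex
        have ht0 : ∀ q ∈ t, q.2 = 0 := fun q hq => Nat.le_zero.1 (hex q hq)
        have hst : (t.map Prod.snd).sum = 0 := by
          rw [Mul_sum_const 0 t ht0, mul_zero]
        rw [hst, add_zero] at hsump
        rw [hsump] at heven hsum
        have hρe : Even ρ := by
          rcases Nat.even_mul.1 heven with h | h
          · exact absurd h (Nat.not_even_iff_odd.2 hodd)
          · exact h
        have hρ2 : 2 ≤ ρ := by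
          rcases hρe with ⟨a, ha⟩
          omega
        have hu2 : 2 ≤ Multiset.card U := Nat.le_of_mul_le_mul_right hsum hpos
        have hu3 : 3 ≤ Multiset.card U := by
          rcases hodd with ⟨a, ha⟩
          omega
        have hU2 : ∀ q ∈ U, 2 ≤ q.2 := fun q hq => by rw [hUmem q hq]; exact hρ2
        have hsub := Mul_sum_sub 2 U hU2
        have hmap := Mul_map_eq 2 U hU2
        have hsum' : (((U.map fun q : ℕ × ℕ => (q.1 + 2, q.2 - 2)) + t).map Prod.snd).sum
            = Multiset.card U * (ρ - 2) := by
          rw [Multiset.map_add, Multiset.sum_add, hst, Multiset.map_map]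
          have hc : (U.map (Prod.snd ∘ fun q : ℕ × ℕ => (q.1 + 2, q.2 - 2))).sum
            = (U.map fun q : ℕ × ℕ => q.2 - 2).sum := rfl
          rw [hc]
          obtain ⟨σ, rfl⟩ : ∃ σ, ρ = σ + 2 := ⟨ρ - 2, by omega⟩
          rw [hsumU] at hsub
          simp only [Nat.add_sub_cancel, Nat.mul_add] at hsub ⊢
          omega
        have hih := ih (ρ - 2) (by omega) (r + 2) (k + 4)
          ((U.map fun q : ℕ × ℕ => (q.1 + 2, q.2 - 2)) + t) ?_ ?_ ?_
        · refine Relation.ReflTransGen.head
            (b := (k + 4, r + 2, (U.map Prod.fst).map (· + 2) + t.map Prod.fst)) ?_ ?_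
          · rw [← hUt, Multiset.map_add]
            exact Step.odd k r (U.map Prod.fst) (t.map Prod.fst) (by simpa using hodd)
              (by simpa using hu3)
          · have e1 : ((U.map fun q : ℕ × ℕ => (q.1 + 2, q.2 - 2)) + t).map Prod.fst
                = (U.map Prod.fst).map (· + 2) + t.map Prod.fst := by
              rw [Multiset.map_add, Multiset.map_map, Multiset.map_map]
              rfl
            have e2 : (((U.map fun q : ℕ × ℕ => (q.1 + 2, q.2 - 2)) + t).map fun q => q.1 + q.2)
                = p.map fun q => q.1 + q.2 := by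
              rw [← hUt, Multiset.map_add, Multiset.map_add, Multiset.map_map, ← hmap]
              rfl
            rw [e1, e2] at hih
            have e3 : k + 4 + 2 * (ρ - 2) = k + 2 * ρ := by omega
            have e4 : r + 2 + (ρ - 2) = r + ρ := by omega
            rw [e3, e4] at hih
            exact hih
        · intro q hq
          rcases Multiset.mem_add.1 hq with h | h
          · obtain ⟨q', hq', rfl⟩ := Multiset.mem_map.1 h
            have := hUmem q' hq'
            simp only
            omega
          · have := ht0 q h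
            omega
        · rw [hsum']
          apply Even.mul_left
          rcases hρe with ⟨a, ha⟩
          exact ⟨a - 1, by omega⟩
        · rw [hsum']
          exact Nat.mul_le_mul_right _ hu2

/-- adding variables `x_0` -/
theorem Mul_x0 (k r : ℕ) (s : Multiset ℕ) (c : ℕ) :
    Relation.ReflTransGen Step (k, r, s) (k + c, r, s) := by
  induction c with
  | zero => exact Relation.ReflTransGen.refl
  | succ c ih => exact ih.tail (Step.x0 (k + c) r s)

/-- DI-MUL. -/
theorem step_mul (r ρ k κ : ℕ) (p : Multiset (ℕ × ℕ)) (hρ : ∀ q ∈ p, q.2 ≤ ρ)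
    (heven : Even (p.map Prod.snd).sum) (hsum : 2 * ρ ≤ (p.map Prod.snd).sum)
    (hκ : 2 * ρ ≤ κ) :
    Relation.ReflTransGen Step (k, r, p.map Prod.fst)
      (k + κ, r + ρ, p.map fun q => q.1 + q.2) := by
  have h1 := Mul_main ρ r k p hρ heven hsum
  have h2 := Mul_x0 (k + 2 * ρ) (r + ρ) (p.map fun q => q.1 + q.2) (κ - 2 * ρ)
  have e : k + 2 * ρ + (κ - 2 * ρ) = k + κ := by omega
  rw [e] at h2
  exact h1.trans h2

end Pool.Agent.Helper77.DI
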